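import Pool.Agent.H961R2.Lev.Stubs

/-!
# K1: the Cauchy kernel is a mixture of binomial kernels (helper64)
-/

open Filter Topology

namespace H961Lev

namespace H64K1

/-- finite products -/
noncomputable def P (a : ℝ) (J : ℕ) : ℝ := ∏ k ∈ Finset.range J, (1 + a ^ 2 / ((k : ℝ) + 1) ^ 2)

/-- finite products, second form -/
noncomputable def q (a : ℝ) (j : ℕ) : ℝ := ∏ k ∈ Finset.range j, ((k : ℝ) ^ 2 + a ^ 2)

/-- the infinite product -/
noncomputable def La (a : ℝ) : ℝ := ⨆ J, P a J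

/-- the weights -/
noncomputable def W (a : ℝ) (j : ℕ) : ℝ := 4 ^ j / (2 * j).factorial * (q a j / (a ^ 2 * La a))

theorem P_zero (a : ℝ) : P a 0 = 1 := by simp [P]

theorem P_succ (a : ℝ) (J : ℕ) : P a (J + 1) = P a J * (1 + a ^ 2 / ((J : ℝ) + 1) ^ 2) := by
  unfold P
  rw [Finset.prod_range_succ]

theorem P_pos (a : ℝ) (J : ℕ) : 0 < P a J := by
  unfold P
  exact Finset.prod_pos fun k _ => by positivity

theorem P_mono (a : ℝ) : Monotone (P a) := by
  refine monotone_nat_of_le_succ fun J => ?_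
  rw [P_succ]
  have h1 := P_pos a J
  have h2 : (1 : ℝ) ≤ 1 + a ^ 2 / ((J : ℝ) + 1) ^ 2 := by
    have : 0 ≤ a ^ 2 / ((J : ℝ) + 1) ^ 2 := by positivity
    linarith
  nlinarith

theorem P_one_le (a : ℝ) (J : ℕ) : 1 ≤ P a J := by
  rw [← P_zero a]
  exact P_mono a (Nat.zero_le J)

theorem P_bdd (a : ℝ) : BddAbove (Set.range (P a)) := by
  have hs : Summable (fun k : ℕ => a ^ 2 / ((k : ℝ) + 1) ^ 2) := by
    have h1 : Summable (fun k : ℕ => 1 / (((k + 1 : ℕ) : ℝ)) ^ 2) :=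
      (summable_nat_add_iff 1).2 (Real.summable_one_div_nat_pow.2 (by norm_num))
    have h2 := h1.mul_left (a ^ 2)
    refine h2.congr fun k => ?_
    push_cast
    ring
  refine ⟨Real.exp (∑' k : ℕ, a ^ 2 / ((k : ℝ) + 1) ^ 2), ?_⟩
  rintro _ ⟨J, rfl⟩
  have h1 : P a J ≤ Real.exp (∑ k ∈ Finset.range J, a ^ 2 / ((k : ℝ) + 1) ^ 2) := by
    unfold P
    rw [Real.exp_sum]
    refine Finset.prod_le_prod (fun k _ => by positivity) fun k _ => ?_
    rw [add_comm]
    exact Real.add_one_le_exp _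
  refine h1.trans (Real.exp_le_exp.2 ?_)
  exact hs.sum_le_tsum _ fun k _ => by positivity

theorem P_tendsto (a : ℝ) : Tendsto (P a) atTop (𝓝 (La a)) :=
  tendsto_atTop_ciSup (P_mono a) (P_bdd a)

theorem P_le_La (a : ℝ) (J : ℕ) : P a J ≤ La a := le_ciSup (P_bdd a) J

theorem La_one_le (a : ℝ) : 1 ≤ La a := (P_one_le a 0).trans (P_le_La a 0)

theorem La_pos (a : ℝ) : 0 < La a := lt_of_lt_of_le one_pos (La_one_le a)

theorem q_succ (a : ℝ) (j : ℕ) : q a (j + 1) = q a j * ((j : ℝ) ^ 2 + a ^ 2) := by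
  unfold q
  rw [Finset.prod_range_succ]

theorem q_nonneg (a : ℝ) (j : ℕ) : 0 ≤ q a j := by
  unfold q
  exact Finset.prod_nonneg fun k _ => by positivity

theorem q_eq (a : ℝ) (J : ℕ) : q a (J + 1) = a ^ 2 * ((J.factorial : ℝ)) ^ 2 * P a J := by
  induction J with
  | zero => simp [q, P]
  | succ J ih =>
    rw [q_succ, ih, P_succ, Nat.factorial_succ]
    push_cast
    have : (J : ℝ) + 1 ≠ 0 := by positivity
    field_simp

theorem W_nonneg {a : ℝ} (_ha : 0 < a) (j : ℕ) : 0 ≤ W a j := by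
  unfold W
  have h1 := q_nonneg a j
  have h2 := La_pos a
  positivity

/-- monotonicity of the ratios -/
theorem ratio {s b : ℝ} (hs : 0 < s) (hsb : s ≤ b) (n : ℕ) :
    P b n * La s ≤ P s n * La b := by
  have key : ∀ k : ℕ, P b n * P s (n + k) ≤ P s n * P b (n + k) := by
    intro k
    induction k with
    | zero => simp only [add_zero]; linarith [mul_comm (P b n) (P s n)]
    | succ k ih =>
      rw [← add_assoc, P_succ, P_succ]
      have h1 : 1 + s ^ 2 / (((n + k : ℕ) : ℝ) + 1) ^ 2 ≤ 1 + b ^ 2 / (((n + k : ℕ) : ℝ) + 1) ^ 2 := by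
        have : s ^ 2 ≤ b ^ 2 := pow_le_pow_left₀ hs.le hsb 2
        gcongr
      have h2 : 0 ≤ 1 + s ^ 2 / (((n + k : ℕ) : ℝ) + 1) ^ 2 := by positivity
      have h3 : 0 ≤ P s n * P b (n + k) := (mul_pos (P_pos _ _) (P_pos _ _)).le
      calc P b n * (P s (n + k) * (1 + s ^ 2 / (((n + k : ℕ) : ℝ) + 1) ^ 2))
          = (P b n * P s (n + k)) * (1 + s ^ 2 / (((n + k : ℕ) : ℝ) + 1) ^ 2) := by ring
        _ ≤ (P s n * P b (n + k)) * (1 + b ^ 2 / (((n + k : ℕ) : ℝ) + 1) ^ 2) :=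
            mul_le_mul ih h1 h2 h3
        _ = _ := by ring
  have h1 : Tendsto (fun k => P b n * P s (n + k)) atTop (𝓝 (P b n * La s)) := by
    refine Tendsto.const_mul _ ?_
    have := (tendsto_add_atTop_iff_nat n).2 (P_tendsto s)
    refine this.congr fun k => ?_
    rw [add_comm]
  have h2 : Tendsto (fun k => P s n * P b (n + k)) atTop (𝓝 (P s n * La b)) := by
    refine Tendsto.const_mul _ ?_
    have := (tendsto_add_atTop_iff_nat n).2 (P_tendsto b)
    refine this.congr fun k => ?_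
    rw [add_comm]
  exact le_of_tendsto_of_tendsto' h1 h2 key

theorem W_anti {s b : ℝ} (hs : 0 < s) (hsb : s ≤ b) (j : ℕ) : W b j ≤ W s j := by
  have hb : 0 < b := lt_of_lt_of_le hs hsb
  unfold W
  refine mul_le_mul_of_nonneg_left ?_ (by positivity)
  rcases j with _ | j
  · have e1 : ∀ a : ℝ, q a 0 = 1 := fun a => by simp [q]
    rw [e1, e1]
    have h1 := ratio hs hsb 0
    rw [P_zero, P_zero, one_mul, one_mul] at h1
    apply one_div_le_one_div_of_le
    · have := La_pos s; positivity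
    · exact mul_le_mul (pow_le_pow_left₀ hs.le hsb 2) h1 (La_pos s).le (by positivity)
  · rw [q_eq, q_eq]
    have h1 := ratio hs hsb j
    have h2 := La_pos s
    have h3 := La_pos b
    have e1 : ∀ a : ℝ, 0 < a → a ^ 2 * ((j.factorial : ℝ)) ^ 2 * P a j / (a ^ 2 * La a) =
        ((j.factorial : ℝ)) ^ 2 * (P a j / La a) := by
      intro a ha
      have := La_pos a
      field_simp
    rw [e1 b hb, e1 s hs]
    refine mul_le_mul_of_nonneg_left ?_ (by positivity)
    rw [div_le_div_iff₀ h3 h2]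
    exact h1

/-- partial sums -/
theorem partial_sum {a : ℝ} (ha : 0 < a) (m n : ℕ) :
    ∑ j ∈ Finset.range (m + n + 1), W a j * ((Nat.choose (2 * j) (j + m) : ℝ) / 4 ^ j) =
      1 / (a ^ 2 * La a) * (q a (m + n + 1) /
        ((a ^ 2 + (m : ℝ) ^ 2) * ((n.factorial : ℝ) * ((2 * m + n).factorial : ℝ)))) := by
  have hL := La_pos a
  -- general term
  have term : ∀ n : ℕ, W a (m + n) * ((Nat.choose (2 * (m + n)) (m + n + m) : ℝ) / 4 ^ (m + n)) =
      1 / (a ^ 2 * La a) * (q a (m + n) / ((n.factorial : ℝ) * ((2 * m + n).factorial : ℝ))) := by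
    intro n
    have h1 : Nat.choose (2 * (m + n)) (m + n + m) * (m + n + m).factorial *
        (2 * (m + n) - (m + n + m)).factorial = (2 * (m + n)).factorial :=
      Nat.choose_mul_factorial_mul_factorial (by omega)
    have h2 : 2 * (m + n) - (m + n + m) = n := by omega
    have h3 : m + n + m = 2 * m + n := by ring
    rw [h2, h3] at h1
    rw [h3]
    have h4 : (Nat.choose (2 * (m + n)) (2 * m + n) : ℝ) * ((2 * m + n).factorial : ℝ) *
        (n.factorial : ℝ) = ((2 * (m + n)).factorial : ℝ) := by exact_mod_cast h1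
    unfold W
    rw [← h4]
    have p1 : (0 : ℝ) < (Nat.choose (2 * (m + n)) (2 * m + n) : ℝ) := by
      exact_mod_cast Nat.choose_pos (by omega)
    have p2 : (0 : ℝ) < ((2 * m + n).factorial : ℝ) := by positivity
    have p3 : (0 : ℝ) < (n.factorial : ℝ) := by positivity
    field_simp
  induction n with
  | zero =>
    rw [Finset.sum_range_succ]
    have h0 : ∑ j ∈ Finset.range m, W a j * ((Nat.choose (2 * j) (j + m) : ℝ) / 4 ^ j) = 0 := by
      refine Finset.sum_eq_zero fun j hj => ?_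
      rw [Finset.mem_range] at hj
      rw [Nat.choose_eq_zero_of_lt (by omega)]
      simp
    have ht := term 0
    simp only [add_zero] at ht ⊢
    rw [h0, zero_add, ht, q_succ]
    have p1 : (0 : ℝ) < a ^ 2 + (m : ℝ) ^ 2 := by positivity
    have p2 : (0 : ℝ) < ((2 * m).factorial : ℝ) := by positivity
    field_simp
    ring
  | succ n ih =>
    have e0 : m + (n + 1) + 1 = (m + n + 1) + 1 := by ring
    rw [e0, Finset.sum_range_succ, ih]
    have e1 : m + n + 1 = m + (n + 1) := by ring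
    have h1 := term (n + 1)
    rw [← e1] at h1
    rw [h1, q_succ a (m + n + 1)]
    have e2 : 2 * m + (n + 1) = (2 * m + n) + 1 := by ring
    rw [e2, Nat.factorial_succ, Nat.factorial_succ]
    push_cast
    have p1 : (0 : ℝ) < a ^ 2 + (m : ℝ) ^ 2 := by positivity
    have p2 : (0 : ℝ) < ((2 * m + n).factorial : ℝ) := by positivity
    have p3 : (0 : ℝ) < (n.factorial : ℝ) := by positivity
    have p4 : (0 : ℝ) < (n : ℝ) + 1 := by positivity
    have p5 : (0 : ℝ) < 2 * (m : ℝ) + n + 1 := by positivity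
    field_simp
    ring

/-- the factorial ratio -/
theorem rho_tendsto (m : ℕ) : Tendsto (fun n : ℕ => (((m + n).factorial : ℝ)) ^ 2 /
    ((n.factorial : ℝ) * ((2 * m + n).factorial : ℝ))) atTop (𝓝 1) := by
  have h1 : ∀ n : ℕ, (((m + n).factorial : ℝ)) ^ 2 /
      ((n.factorial : ℝ) * ((2 * m + n).factorial : ℝ)) =
      ∏ i ∈ Finset.range m, (1 - (m : ℝ) / ((n : ℝ) + ((m : ℝ) + 1 + i))) := by
    intro n
    have e1 : ((m + n).factorial : ℝ) = (n.factorial : ℝ) * ∏ i ∈ Finset.range m, ((n : ℝ) + 1 + i) := by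
      have h := Nat.factorial_mul_ascFactorial n m
      rw [Nat.ascFactorial_eq_prod_range, add_comm n m] at h
      rw [← h]
      push_cast
      rfl
    have e2 : ((2 * m + n).factorial : ℝ) = ((m + n).factorial : ℝ) *
        ∏ i ∈ Finset.range m, (((m + n : ℕ) : ℝ) + 1 + i) := by
      have h := Nat.factorial_mul_ascFactorial (m + n) m
      rw [Nat.ascFactorial_eq_prod_range] at h
      have e3 : m + n + m = 2 * m + n := by ring
      rw [e3] at h
      rw [← h]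
      push_cast
      rfl
    have p1 : (0 : ℝ) < (n.factorial : ℝ) := by positivity
    have p2 : (0 : ℝ) < ((m + n).factorial : ℝ) := by positivity
    have p3 : (0 : ℝ) < ∏ i ∈ Finset.range m, (((m + n : ℕ) : ℝ) + 1 + i) :=
      Finset.prod_pos fun i _ => by positivity
    rw [e2]
    have e4 : (((m + n).factorial : ℝ)) ^ 2 / ((n.factorial : ℝ) * (((m + n).factorial : ℝ) *
        ∏ i ∈ Finset.range m, (((m + n : ℕ) : ℝ) + 1 + i))) =
        (((m + n).factorial : ℝ) / (n.factorial : ℝ)) /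
          ∏ i ∈ Finset.range m, (((m + n : ℕ) : ℝ) + 1 + i) := by
      field_simp
    rw [e4, e1, mul_div_cancel_left₀ _ p1.ne', ← Finset.prod_div_distrib]
    refine Finset.prod_congr rfl fun i _ => ?_
    push_cast
    have p4 : (0 : ℝ) < (n : ℝ) + ((m : ℝ) + 1 + i) := by positivity
    have p5 : (0 : ℝ) < (m : ℝ) + n + 1 + i := by positivity
    rw [eq_sub_iff_add_eq, div_add_div _ _ p5.ne' p4.ne', div_eq_one_iff_eq (by positivity)]
    ring
  simp only [h1]
  have h2 : Tendsto (fun n : ℕ => ∏ i ∈ Finset.range m,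
      (1 - (m : ℝ) / ((n : ℝ) + ((m : ℝ) + 1 + i)))) atTop
      (𝓝 (∏ _i ∈ Finset.range m, (1 - 0))) := by
    refine tendsto_finsetProd _ fun i _ => ?_
    refine Tendsto.const_sub _ ?_
    refine Tendsto.div_atTop tendsto_const_nhds ?_
    exact tendsto_atTop_add_const_right _ _ tendsto_natCast_atTop_atTop
  simpa using h2

theorem hasSum {a : ℝ} (ha : 0 < a) (m : ℕ) :
    HasSum (fun j : ℕ => W a j * ((Nat.choose (2 * j) (j + m) : ℝ) / 4 ^ j))
      (1 / (a ^ 2 + (m : ℝ) ^ 2)) := by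
  have hL := La_pos a
  rw [hasSum_iff_tendsto_nat_of_nonneg (fun j => mul_nonneg (W_nonneg ha j) (by positivity))]
  have h1 : Tendsto (fun n : ℕ => ∑ j ∈ Finset.range (m + n + 1),
      W a j * ((Nat.choose (2 * j) (j + m) : ℝ) / 4 ^ j)) atTop (𝓝 (1 / (a ^ 2 + (m : ℝ) ^ 2))) := by
    have h2 : ∀ n : ℕ, ∑ j ∈ Finset.range (m + n + 1),
        W a j * ((Nat.choose (2 * j) (j + m) : ℝ) / 4 ^ j) =
        (1 / (La a * (a ^ 2 + (m : ℝ) ^ 2))) * (P a (m + n) * ((((m + n).factorial : ℝ)) ^ 2 /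
    ((n.factorial : ℝ) * ((2 * m + n).factorial : ℝ)))) := by
      intro n
      rw [partial_sum ha, q_eq]
      have p1 : (0 : ℝ) < a ^ 2 + (m : ℝ) ^ 2 := by positivity
      have p2 : (0 : ℝ) < ((2 * m + n).factorial : ℝ) := by positivity
      have p3 : (0 : ℝ) < (n.factorial : ℝ) := by positivity
      field_simp
    simp only [h2]
    have h3 : Tendsto (fun n : ℕ => P a (m + n)) atTop (𝓝 (La a)) := by
      have := (tendsto_add_atTop_iff_nat m).2 (P_tendsto a)
      refine this.congr fun k => ?_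
      rw [add_comm]
    have h4 := (h3.mul (rho_tendsto m)).const_mul (1 / (La a * (a ^ 2 + (m : ℝ) ^ 2)))
    have h5 : 1 / (La a * (a ^ 2 + (m : ℝ) ^ 2)) * (La a * 1) = 1 / (a ^ 2 + (m : ℝ) ^ 2) := by
      have p1 : (0 : ℝ) < a ^ 2 + (m : ℝ) ^ 2 := by positivity
      field_simp
    rw [h5] at h4
    exact h4
  rw [← tendsto_add_atTop_iff_nat (m + 1)]
  refine h1.congr fun n => ?_
  rw [show n + (m + 1) = m + n + 1 by ring]

/-- lower bound for the central binomial coefficient -/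
theorem central (n : ℕ) : ((4 : ℝ) ^ (n + 1)) ^ 2 ≤
    4 * ((n : ℝ) + 1) * ((Nat.centralBinom (n + 1) : ℝ)) ^ 2 := by
  induction n with
  | zero => norm_num [Nat.centralBinom, Nat.choose]
  | succ n ih =>
    have h1 : ((n : ℝ) + 1 + 1) * (Nat.centralBinom (n + 1 + 1) : ℝ) =
        2 * (2 * ((n : ℝ) + 1) + 1) * (Nat.centralBinom (n + 1) : ℝ) := by
      exact_mod_cast Nat.succ_mul_centralBinom_succ (n + 1)
    set c := (Nat.centralBinom (n + 1) : ℝ) with hc
    set c' := (Nat.centralBinom (n + 1 + 1) : ℝ) with hc'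
    push_cast
    have hn : (0 : ℝ) < (n : ℝ) + 1 + 1 := by positivity
    have h2 : ((n : ℝ) + 1 + 1) * (((4 : ℝ) ^ (n + 1 + 1)) ^ 2) ≤
        ((n : ℝ) + 1 + 1) * (4 * ((n : ℝ) + 1 + 1) * c' ^ 2) := by
      have e1 : ((n : ℝ) + 1 + 1) * (4 * ((n : ℝ) + 1 + 1) * c' ^ 2) =
          4 * (((n : ℝ) + 1 + 1) * c') ^ 2 := by ring
      have e2 : ((4 : ℝ) ^ (n + 1 + 1)) ^ 2 = 16 * ((4 : ℝ) ^ (n + 1)) ^ 2 := by
        rw [pow_succ (4 : ℝ) (n + 1)]; ring
      rw [e1, h1, e2]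
      have e3 : 4 * (2 * (2 * ((n : ℝ) + 1) + 1) * c) ^ 2 =
          16 * (2 * ((n : ℝ) + 1) + 1) ^ 2 * c ^ 2 := by ring
      rw [e3]
      have e4 : ((n : ℝ) + 1 + 1) * (4 * ((n : ℝ) + 1) * c ^ 2) ≤
          (2 * ((n : ℝ) + 1) + 1) ^ 2 * c ^ 2 := by
        have : 0 ≤ c ^ 2 := sq_nonneg c
        nlinarith
      have e5 := mul_le_mul_of_nonneg_left ih hn.le
      nlinarith
    exact le_of_mul_le_mul_left h2 hn

theorem W_summable {a : ℝ} (ha : 0 < a) : Summable (W a) := by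
  rw [← summable_nat_add_iff 1]
  have hs : Summable (fun j : ℕ => 2 * (1 / (((j + 1 : ℕ) : ℝ)) ^ (3 / 2 : ℝ))) :=
    ((summable_nat_add_iff 1).2 (Real.summable_one_div_nat_rpow.2 (by norm_num))).mul_left 2
  refine Summable.of_nonneg_of_le (fun j => W_nonneg ha _) (fun j => ?_) hs
  have hL := La_pos a
  have h1 : W a (j + 1) ≤ 4 ^ (j + 1) / (((j : ℝ) + 1) ^ 2 * (Nat.centralBinom (j + 1) : ℝ)) := by
    unfold W
    rw [q_eq]
    have e0 : ((2 * (j + 1)).factorial : ℝ) = (Nat.centralBinom (j + 1) : ℝ) *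
        ((j + 1).factorial : ℝ) ^ 2 := by
      have := Nat.choose_mul_factorial_mul_factorial (show j + 1 ≤ 2 * (j + 1) by omega)
      rw [show 2 * (j + 1) - (j + 1) = j + 1 by omega] at this
      rw [Nat.centralBinom_eq_two_mul_choose, ← this]
      push_cast
      ring
    have p1 : (0 : ℝ) < (Nat.centralBinom (j + 1) : ℝ) := by
      exact_mod_cast Nat.centralBinom_pos (j + 1)
    have p2 : (0 : ℝ) < (j.factorial : ℝ) := by positivity
    have e1 : a ^ 2 * ((j.factorial : ℝ)) ^ 2 * P a j / (a ^ 2 * La a) =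
        ((j.factorial : ℝ)) ^ 2 * (P a j / La a) := by
      field_simp
    have e2 : P a j / La a ≤ 1 := (div_le_one hL).2 (P_le_La a j)
    rw [e1, e0]
    calc (4 : ℝ) ^ (j + 1) / ((Nat.centralBinom (j + 1) : ℝ) * ((j + 1).factorial : ℝ) ^ 2) *
          (((j.factorial : ℝ)) ^ 2 * (P a j / La a))
        ≤ (4 : ℝ) ^ (j + 1) / ((Nat.centralBinom (j + 1) : ℝ) * ((j + 1).factorial : ℝ) ^ 2) *
          (((j.factorial : ℝ)) ^ 2 * 1) := by gcongr
      _ = _ := by
          rw [Nat.factorial_succ]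
          push_cast
          have p3 : (0 : ℝ) < (j : ℝ) + 1 := by positivity
          field_simp
  refine h1.trans ?_
  have p1 : (0 : ℝ) < (Nat.centralBinom (j + 1) : ℝ) := by
    exact_mod_cast Nat.centralBinom_pos (j + 1)
  have p3 : (0 : ℝ) < (j : ℝ) + 1 := by positivity
  have h2 : (4 : ℝ) ^ (j + 1) ≤ 2 * Real.sqrt ((j : ℝ) + 1) * (Nat.centralBinom (j + 1) : ℝ) := by
    apply le_of_sq_le_sq _ (by positivity) |> fun h => h
    have := central j
    calc ((4 : ℝ) ^ (j + 1)) ^ 2 ≤ 4 * ((j : ℝ) + 1) * ((Nat.centralBinom (j + 1) : ℝ)) ^ 2 := this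
      _ = (2 * Real.sqrt ((j : ℝ) + 1) * (Nat.centralBinom (j + 1) : ℝ)) ^ 2 := by
          rw [mul_pow, mul_pow, Real.sq_sqrt p3.le]; ring
  have e3 : (((j + 1 : ℕ) : ℝ)) ^ (3 / 2 : ℝ) = ((j : ℝ) + 1) * Real.sqrt ((j : ℝ) + 1) := by
    push_cast
    rw [show (3 / 2 : ℝ) = 1 + 1 / 2 by norm_num, Real.rpow_add p3, Real.rpow_one, Real.sqrt_eq_rpow]
  rw [e3]
  have p4 : 0 < Real.sqrt ((j : ℝ) + 1) := Real.sqrt_pos.2 p3
  have e4 : 2 * (1 / (((j : ℝ) + 1) * Real.sqrt ((j : ℝ) + 1))) =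
      (2 * Real.sqrt ((j : ℝ) + 1)) / (((j : ℝ) + 1) ^ 2) := by
    have := Real.mul_self_sqrt p3.le
    field_simp
    nlinarith
  rw [e4, div_le_div_iff₀ (by positivity) (by positivity)]
  calc (4 : ℝ) ^ (j + 1) * ((j : ℝ) + 1) ^ 2
      ≤ (2 * Real.sqrt ((j : ℝ) + 1) * (Nat.centralBinom (j + 1) : ℝ)) * ((j : ℝ) + 1) ^ 2 :=
        mul_le_mul_of_nonneg_right h2 (by positivity)
    _ = _ := by ring

end H64K1

theorem T_K1 : S_K1 :=
  ⟨H64K1.W, fun _ ha j => H64K1.W_nonneg ha j, fun _ ha => H64K1.W_summable ha,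
    fun _ ha m => H64K1.hasSum ha m, fun _ _ hs hsb j => H64K1.W_anti hs hsb j⟩

end H961Lev
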