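import Pool.Agent.H961R2.Lev.Stubs

/-!
# K2: binomial expansion of the powers of `A2` (helper64)
-/

namespace H961Lev

namespace H64K2

/-- binomial sums -/
noncomputable def Pn (n : ℕ) (Z : ℤ → ℝ) (i : ℤ) : ℝ :=
  ∑ k ∈ Finset.range (n + 1), (Nat.choose n k : ℝ) * Z (i + k)

theorem Pn_succ (n : ℕ) (Z : ℤ → ℝ) (i : ℤ) : Pn (n + 1) Z i = Pn n Z i + Pn n Z (i + 1) := by
  unfold Pn
  have h1 : ∑ k ∈ Finset.range (n + 1), (Nat.choose n k : ℝ) * Z (i + k) =
      ∑ k ∈ Finset.range (n + 1), (Nat.choose n (k + 1) : ℝ) * Z (i + ((k + 1 : ℕ) : ℤ)) + Z i := by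
    rw [Finset.sum_range_succ', Finset.sum_range_succ (fun k =>
      (Nat.choose n (k + 1) : ℝ) * Z (i + ((k + 1 : ℕ) : ℤ)))]
    simp
  rw [Finset.sum_range_succ', h1]
  have h2 : ∀ k ∈ Finset.range (n + 1), (Nat.choose (n + 1) (k + 1) : ℝ) *
      Z (i + ((k + 1 : ℕ) : ℤ)) = (Nat.choose n (k + 1) : ℝ) * Z (i + ((k + 1 : ℕ) : ℤ)) +
        (Nat.choose n k : ℝ) * Z (i + 1 + k) := by
    intro k _
    rw [Nat.choose_succ_succ]
    have h3 : i + ((k + 1 : ℕ) : ℤ) = i + 1 + k := by push_cast; ring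
    rw [h3]
    push_cast
    ring
  rw [Finset.sum_congr rfl h2, Finset.sum_add_distrib]
  simp only [Nat.choose_zero_right, Nat.cast_one, one_mul, Nat.cast_zero, add_zero]
  ring

theorem iter (Z : ℤ → ℝ) (j : ℕ) : ∀ i : ℤ, (A2^[j] Z) i = Pn (2 * j) Z (i - j) / 4 ^ j := by
  induction j with
  | zero =>
    intro i
    simp [Pn]
  | succ j ih =>
    intro i
    rw [Function.iterate_succ_apply']
    show ((A2^[j] Z) (i - 1) + 2 * (A2^[j] Z) i + (A2^[j] Z) (i + 1)) / 4 = _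
    rw [ih, ih, ih]
    have e1 : 2 * (j + 1) = (2 * j + 1) + 1 := by ring
    rw [e1, Pn_succ, Pn_succ, Pn_succ]
    have a1 : i - 1 - (j : ℤ) = i - ((j + 1 : ℕ) : ℤ) := by push_cast; ring
    have a2 : i - (j : ℤ) = i - ((j + 1 : ℕ) : ℤ) + 1 := by push_cast; ring
    have a3 : i + 1 - (j : ℤ) = i - ((j + 1 : ℕ) : ℤ) + 1 + 1 := by push_cast; ring
    rw [a1, a2, a3, pow_succ]
    field_simp
    ring

end H64K2

open H64K2 in
theorem T_K2 : S_K2 := by
  intro Z j i
  rw [iter]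
  unfold Pn
  rw [Finset.sum_div]
  refine Finset.sum_bij (fun (k : ℕ) _ => (k : ℤ) - j) ?_ ?_ ?_ ?_
  · intro k hk
    rw [Finset.mem_range] at hk
    rw [Finset.mem_Icc]
    constructor <;> omega
  · intro a _ b _ h
    have : (a : ℤ) = b := by linarith
    exact_mod_cast this
  · intro m hm
    rw [Finset.mem_Icc] at hm
    refine ⟨(m + j).toNat, ?_, ?_⟩
    · rw [Finset.mem_range]; omega
    · rw [Int.toNat_of_nonneg (by omega)]; ring
  · intro k hk
    rw [Finset.mem_range] at hk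
    have h1 : Nat.choose (2 * j) k = Nat.choose (2 * j) (j + ((k : ℤ) - j).natAbs) := by
      rcases le_total j k with h | h
      · have : j + ((k : ℤ) - j).natAbs = k := by omega
        rw [this]
      · have : j + ((k : ℤ) - j).natAbs = 2 * j - k := by omega
        rw [this, Nat.choose_symm (by omega)]
    have h2 : i - (j : ℤ) + k = i + ((k : ℤ) - j) := by ring
    rw [h1, h2]
    ring

end H961Lev
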